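import Pool.Agent.Helper17K9.NR.Germ

set_option autoImplicit false

/-!
# The field of the quotients of sequences of integers of polynomial size
-/

namespace Pool.Agent.Helper17K9.NR

open Filter

variable (σ : Scale)

/-- a linear independence measure -/
def Mea {m : ℕ} (z : Fin m → ℝ) : Prop :=
  ∃ κ : ℕ, ∃ c : ℝ, 0 < c ∧ ∀ a : Fin m → ℤ, a ≠ 0 → ∀ H : ℝ, 1 ≤ H → (∀ j, |(a j : ℝ)| ≤ H) →
    c ≤ H ^ κ * |∑ j, (a j : ℝ) * z j|

/-- the ring of the classes of sequences of integers -/
noncomputable def RR : Subring (LL σ) := (phi σ).range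

/-- its field of fractions -/
abbrev KK : Type := FractionRing (RR σ)

noncomputable instance : Algebra (KK σ) (LL σ) := FractionRing.liftAlgebra (RR σ) (LL σ)

instance : IsScalarTower (RR σ) (KK σ) (LL σ) := FractionRing.isScalarTower_liftAlgebra _ _

/-- a sequence of integers as an element of `RR` -/
noncomputable def toR (n : ZS σ) : RR σ := ⟨phi σ n, ⟨n, rfl⟩⟩

lemma toR_surj (r : RR σ) : ∃ n : ZS σ, toR σ n = r := by
  obtain ⟨n, hn⟩ := r.2
  exact ⟨n, Subtype.ext hn⟩

lemma toR_smul (n : ZS σ) (z : LL σ) : toR σ n • z = phi σ n * z := rfl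

/-- integer sequences in the ideal vanish almost everywhere -/
lemma phi_zero (n : ZS σ) : phi σ n = 0 ↔ ∀ᶠ k in (UU : Filter ℕ), n.1 k = 0 := by
  have h := phi_sum σ (fun _ : Fin 1 => n) (fun _ => 1)
  simp only [Finset.univ_unique, Fin.default_eq_zero, Fin.isValue, Finset.sum_singleton, map_one, mul_one] at h
  rw [h]
  constructor
  · intro h1
    filter_upwards [h1 1] with k hk
    by_contra h0
    have h2 : (1 : ℝ) ≤ |(n.1 k : ℝ)| := by exact_mod_cast Int.one_le_abs h0
    have h3 := σ.two k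
    rw [pow_one] at hk
    nlinarith
  · intro h1 m
    filter_upwards [h1] with k hk
    rw [hk]
    simp

/-- a measure gives linear independence -/
theorem indep {m : ℕ} (z : Fin m → ℝ) (hz : Mea z) : LinearIndependent (RR σ) (fun j => cst σ (z j)) := by
  obtain ⟨κ, c, hc, h⟩ := hz
  rw [Fintype.linearIndependent_iff]
  intro g hg
  choose n hn using fun j => toR_surj σ (g j)
  have h1 : ∑ j, phi σ (n j) * cst σ (z j) = 0 := by
    rw [← hg]
    refine Finset.sum_congr rfl fun j _ => ?_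
    rw [← hn, toR_smul]
  rw [phi_sum] at h1
  choose e he using fun j => (mem_ZS σ).1 (n j).2
  obtain ⟨E, hE⟩ : ∃ E : ℕ, ∀ j, e j ≤ E := ⟨∑ j, e j, fun j => Finset.single_le_sum (f := e) (fun _ _ => Nat.zero_le _) (Finset.mem_univ j)⟩
  obtain ⟨u, hu⟩ := pow_unbounded_of_one_lt (1 / c) (by norm_num : (1 : ℝ) < 2)
  have hall : ∀ᶠ k in (UU : Filter ℕ), ∀ j, (n j).1 k = 0 := by
    have h2 : ∀ᶠ k in (UU : Filter ℕ), ∀ j, |((n j).1 k : ℝ)| ≤ σ.T k ^ e j := eventually_all.2 he
    filter_upwards [h2, h1 (E * κ + u)] with k hk1 hk2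
    by_contra hcon
    push Not at hcon
    obtain ⟨j0, hj0⟩ := hcon
    have h3 := h (fun j => (n j).1 k) (fun h => hj0 (congrFun h j0)) (σ.T k ^ E) (one_le_pow₀ (σ.one k))
      (fun j => (hk1 j).trans (σ.pow_mono k (hE j)))
    rw [← pow_mul] at h3
    have h4 : c * σ.T k ^ u ≤ 1 := by
      calc c * σ.T k ^ u ≤ σ.T k ^ (E * κ) * |∑ j, ((n j).1 k : ℝ) * z j| * σ.T k ^ u :=
            mul_le_mul_of_nonneg_right h3 (σ.pow_pos k u).le
        _ = |∑ j, ((n j).1 k : ℝ) * z j| * σ.T k ^ (E * κ + u) := by rw [pow_add]; ring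
        _ ≤ 1 := hk2
    have h5 : (2 : ℝ) ^ u ≤ σ.T k ^ u := pow_le_pow_left₀ (by norm_num) (σ.two k) u
    rw [div_lt_iff₀ hc] at hu
    nlinarith
  intro j
  rw [← hn]
  refine Subtype.ext ?_
  show phi σ (n j) = 0
  rw [phi_zero]
  filter_upwards [hall] with k hk
  exact hk j

theorem indepK {m : ℕ} (z : Fin m → ℝ) (hz : Mea z) : LinearIndependent (KK σ) (fun j => cst σ (z j)) :=
  (LinearIndependent.iff_fractionRing (RR σ) (KK σ)).1 (indep σ z hz)

open Polynomial in
theorem tr (x : ℝ) (hx : ∀ m : ℕ, Mea (fun j : Fin m => x ^ (j : ℕ))) : Transcendental (KK σ) (cst σ x) := by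
  rw [transcendental_iff]
  intro P hP
  have h1 := indepK σ _ (hx (P.natDegree + 1))
  rw [Fintype.linearIndependent_iff] at h1
  rw [aeval_eq_sum_range, Finset.sum_range] at hP
  have h2 := h1 (fun j => P.coeff j) (by
    rw [← hP]
    refine Finset.sum_congr rfl fun j _ => ?_
    rw [map_pow])
  ext j
  rw [coeff_zero]
  by_cases hj : j < P.natDegree + 1
  · exact h2 ⟨j, hj⟩
  · exact coeff_eq_zero_of_natDegree_lt (by omega)

/-- vectors of integers, linearly independent at every place -/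
theorem vec_indep {J : Type} [Finite J] {s : ℕ} (v : Fin s → J → ZS σ)
    (hv : ∀ k, LinearIndependent ℤ (fun i : Fin s => fun j : J => (v i j).1 k)) :
    LinearIndependent (KK σ) (fun i : Fin s => fun j : J => algebraMap (RR σ) (KK σ) (toR σ (v i j))) := by
  rw [← LinearIndependent.iff_fractionRing (RR σ) (KK σ), Fintype.linearIndependent_iff]
  intro g hg
  choose n hn using fun i => toR_surj σ (g i)
  have h1 : ∀ j, ∀ᶠ k in (UU : Filter ℕ), ∑ i, (n i).1 k * (v i j).1 k = 0 := by
    intro j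
    have h2 := congrFun hg j
    rw [Finset.sum_apply] at h2
    have h3 : algebraMap (RR σ) (KK σ) (∑ i, toR σ (n i) * toR σ (v i j)) = 0 := by
      rw [map_sum]
      refine Eq.trans ?_ h2
      refine Finset.sum_congr rfl fun i _ => ?_
      rw [Pi.smul_apply, Algebra.smul_def, map_mul, hn]
    rw [map_eq_zero_iff _ (IsFractionRing.injective (RR σ) (KK σ))] at h3
    have h4 : phi σ (∑ i, n i * v i j) = 0 := by
      rw [map_sum]
      have h5 := congrArg Subtype.val h3
      rw [AddSubmonoidClass.coe_finsetSum] at h5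
      refine Eq.trans ?_ h5
      refine Finset.sum_congr rfl fun i _ => ?_
      rw [map_mul]
      rfl
    rw [phi_zero] at h4
    filter_upwards [h4] with k hk
    rw [← hk]
    have e1 : (∑ i, n i * v i j : ZS σ).1 = ∑ i, (n i * v i j : ZS σ).1 := map_sum (ZS σ).subtype _ _
    rw [e1, Finset.sum_apply]
    rfl
  have h2 : ∀ᶠ k in (UU : Filter ℕ), ∀ i, (n i).1 k = 0 := by
    filter_upwards [eventually_all.2 h1] with k hk
    have h3 := (Fintype.linearIndependent_iff.1 (hv k)) (fun i => (n i).1 k) (by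
      funext j
      rw [Finset.sum_apply]
      exact hk j)
    exact h3
  intro i
  rw [← hn]
  refine Subtype.ext ?_
  show phi σ (n i) = 0
  rw [phi_zero]
  filter_upwards [h2] with k hk
  exact hk i

end Pool.Agent.Helper17K9.NR
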