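import Mathlib

set_option autoImplicit false

/-!
# Sequences of numbers of polynomial size modulo an ultrafilter

`T : ℕ → ℝ` is a scale, `T k ≥ 2`.  `Acc` is the ring of the sequences bounded by a power of `T`, `Sml` the
maximal ideal of the sequences which are smaller than every power of `1 / T`.
-/

namespace Pool.Agent.Helper17K9.NR

open Filter

/-- the ultrafilter -/
noncomputable abbrev UU : Ultrafilter ℕ := hyperfilter ℕ

/-- a scale -/
structure Scale where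
  T : ℕ → ℝ
  two : ∀ k, 2 ≤ T k

variable (σ : Scale)

lemma Scale.pos (k : ℕ) : 0 < σ.T k := by linarith [σ.two k]
lemma Scale.one (k : ℕ) : 1 ≤ σ.T k := by linarith [σ.two k]
lemma Scale.pow_mono (k : ℕ) {a b : ℕ} (h : a ≤ b) : σ.T k ^ a ≤ σ.T k ^ b := pow_le_pow_right₀ (σ.one k) h
lemma Scale.pow_pos (k m : ℕ) : 0 < σ.T k ^ m := _root_.pow_pos (σ.pos k) m

/-- sequences of polynomial size -/
def Acc : Subring (ℕ → ℝ) where
  carrier := {s | ∃ m : ℕ, ∀ᶠ k in (UU : Filter ℕ), |s k| ≤ σ.T k ^ m}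
  zero_mem' := ⟨0, by simp⟩
  one_mem' := ⟨0, by simp⟩
  add_mem' := by
    rintro s t ⟨m, hm⟩ ⟨n, hn⟩
    refine ⟨max m n + 1, ?_⟩
    filter_upwards [hm, hn] with k h1 h2
    have h3 := σ.pow_mono k (le_max_left m n)
    have h4 := σ.pow_mono k (le_max_right m n)
    have h5 := σ.two k
    have h6 := σ.pow_pos k (max m n)
    calc |(s + t) k| ≤ |s k| + |t k| := abs_add_le _ _
      _ ≤ 2 * σ.T k ^ max m n := by linarith
      _ ≤ σ.T k ^ (max m n + 1) := by rw [pow_succ]; nlinarith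
  mul_mem' := by
    rintro s t ⟨m, hm⟩ ⟨n, hn⟩
    refine ⟨m + n, ?_⟩
    filter_upwards [hm, hn] with k h1 h2
    rw [Pi.mul_apply, abs_mul, pow_add]
    exact mul_le_mul h1 h2 (abs_nonneg _) (σ.pow_pos k m).le
  neg_mem' := by
    rintro s ⟨m, hm⟩
    refine ⟨m, ?_⟩
    filter_upwards [hm] with k h1
    rwa [Pi.neg_apply, abs_neg]

lemma mem_Acc {s : ℕ → ℝ} : s ∈ Acc σ ↔ ∃ m : ℕ, ∀ᶠ k in (UU : Filter ℕ), |s k| ≤ σ.T k ^ m := Iff.rfl

/-- the small sequences -/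
def Sml : Ideal (Acc σ) where
  carrier := {s | ∀ m : ℕ, ∀ᶠ k in (UU : Filter ℕ), |s.1 k| * σ.T k ^ m ≤ 1}
  zero_mem' := by
    intro m
    refine Eventually.of_forall fun k => ?_
    show |(0 : ℝ)| * _ ≤ 1
    simp
  add_mem' := by
    intro s t hs ht m
    filter_upwards [hs (m + 1), ht (m + 1)] with k h1 h2
    have h5 := σ.two k
    have h6 := σ.pow_pos k m
    rw [pow_succ] at h1 h2
    have h7 : |(s + t).1 k| ≤ |s.1 k| + |t.1 k| := abs_add_le _ _
    have a1 := mul_nonneg (abs_nonneg (s.1 k)) h6.le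
    have a2 := mul_nonneg (abs_nonneg (t.1 k)) h6.le
    calc |(s + t).1 k| * σ.T k ^ m ≤ (|s.1 k| + |t.1 k|) * σ.T k ^ m := mul_le_mul_of_nonneg_right h7 h6.le
      _ ≤ 1 := by nlinarith
  smul_mem' := by
    intro c s hs m
    obtain ⟨n, hn⟩ := c.2
    filter_upwards [hs (n + m), hn] with k h1 h2
    have h6 := σ.pow_pos k m
    have e : (c • s).1 k = c.1 k * s.1 k := rfl
    rw [e, abs_mul]
    rw [pow_add] at h1
    calc |c.1 k| * |s.1 k| * σ.T k ^ m ≤ σ.T k ^ n * |s.1 k| * σ.T k ^ m := by gcongr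
      _ = |s.1 k| * (σ.T k ^ n * σ.T k ^ m) := by ring
      _ ≤ 1 := h1

lemma mem_Sml {s : Acc σ} : s ∈ Sml σ ↔ ∀ m : ℕ, ∀ᶠ k in (UU : Filter ℕ), |s.1 k| * σ.T k ^ m ≤ 1 := Iff.rfl

instance : (Sml σ).IsMaximal := by
  rw [Ideal.isMaximal_iff]
  refine ⟨fun h => ?_, fun J x hJ hx hxJ => ?_⟩
  · have h1 := h 1
    obtain ⟨k, hk⟩ := h1.exists
    have e : (1 : Acc σ).1 k = 1 := rfl
    rw [e, abs_one, one_mul, pow_one] at hk
    linarith [σ.two k]
  · rw [mem_Sml] at hx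
    push Not at hx
    obtain ⟨m, hm⟩ := hx
    have hm' : ∀ᶠ k in (UU : Filter ℕ), ¬ |x.1 k| * σ.T k ^ m ≤ 1 := by
      filter_upwards [hm] with k hk
      rw [not_le]
      exact hk
    have hy : (fun k => (x.1 k)⁻¹) ∈ Acc σ := by
      refine ⟨m, ?_⟩
      filter_upwards [hm'] with k hk
      rw [not_le] at hk
      have h6 := σ.pow_pos k m
      have hx0 : 0 < |x.1 k| := by
        by_contra h0
        have : |x.1 k| = 0 := le_antisymm (not_lt.1 h0) (abs_nonneg _)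
        rw [this, zero_mul] at hk
        linarith
      rw [abs_inv, inv_le_comm₀ hx0 h6, inv_eq_one_div, div_le_iff₀ h6]
      exact hk.le
    have h1 : x * ⟨_, hy⟩ - 1 ∈ J := by
      refine hJ ?_
      rw [mem_Sml]
      intro n
      filter_upwards [hm'] with k hk
      have hx0 : x.1 k ≠ 0 := by
        rintro h0
        rw [h0, abs_zero, zero_mul] at hk
        exact hk zero_le_one
      have e : (x * ⟨_, hy⟩ - 1 : Acc σ).1 k = x.1 k * (x.1 k)⁻¹ - 1 := rfl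
      rw [e, mul_inv_cancel₀ hx0, sub_self, abs_zero, zero_mul]
      exact zero_le_one
    have h2 := J.sub_mem (J.mul_mem_right ⟨_, hy⟩ hxJ) h1
    rwa [sub_sub_cancel] at h2

/-- the field of the sequences -/
abbrev LL : Type := Acc σ ⧸ Sml σ

noncomputable instance : Field (LL σ) := Ideal.Quotient.field _

/-- constant sequences -/
noncomputable def cst : ℝ →+* LL σ :=
  (Ideal.Quotient.mk (Sml σ)).comp ((Pi.constRingHom ℕ ℝ).codRestrict (Acc σ) (fun r => by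
    obtain ⟨m, hm⟩ := pow_unbounded_of_one_lt |r| (by norm_num : (1 : ℝ) < 2)
    refine ⟨m, Eventually.of_forall fun k => ?_⟩
    have e : (Pi.constRingHom ℕ ℝ) r k = r := rfl
    rw [e]
    exact hm.le.trans (pow_le_pow_left₀ (by norm_num) (σ.two k) m)))

/-- sequences of integers of polynomial size -/
noncomputable def ZS : Subring (ℕ → ℤ) := (Acc σ).comap (RingHom.compLeft (Int.castRingHom ℝ) ℕ)

lemma mem_ZS {n : ℕ → ℤ} : n ∈ ZS σ ↔ ∃ m : ℕ, ∀ᶠ k in (UU : Filter ℕ), |(n k : ℝ)| ≤ σ.T k ^ m := Iff.rfl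

/-- their classes -/
noncomputable def phi : ZS σ →+* LL σ :=
  (Ideal.Quotient.mk (Sml σ)).comp
    (((RingHom.compLeft (Int.castRingHom ℝ) ℕ).comp (ZS σ).subtype).codRestrict (Acc σ) (fun n => n.2))

/-- linear forms in constants with coefficients in the sequences of integers -/
lemma phi_sum {ι : Type} [Fintype ι] (n : ι → ZS σ) (z : ι → ℝ) :
    ∑ j, phi σ (n j) * cst σ (z j) = 0 ↔
      ∀ m : ℕ, ∀ᶠ k in (UU : Filter ℕ), |∑ j, ((n j).1 k : ℝ) * z j| * σ.T k ^ m ≤ 1 := by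
  obtain ⟨a, ha⟩ : ∃ a : ι → Acc σ, a = fun j => ((RingHom.compLeft (Int.castRingHom ℝ) ℕ).comp
    (ZS σ).subtype).codRestrict (Acc σ) (fun n => n.2) (n j) := ⟨_, rfl⟩
  obtain ⟨b, hb⟩ : ∃ b : ι → Acc σ, b = fun j => ((Pi.constRingHom ℕ ℝ).codRestrict (Acc σ) (fun r => by
    obtain ⟨m, hm⟩ := pow_unbounded_of_one_lt |r| (by norm_num : (1 : ℝ) < 2)
    refine ⟨m, Eventually.of_forall fun k => ?_⟩
    have e : (Pi.constRingHom ℕ ℝ) r k = r := rfl
    rw [e]
    exact hm.le.trans (pow_le_pow_left₀ (by norm_num) (σ.two k) m))) (z j) := ⟨_, rfl⟩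
  have h1 : ∑ j, phi σ (n j) * cst σ (z j) = Ideal.Quotient.mk (Sml σ) (∑ j, a j * b j) := by
    rw [map_sum]
    refine Finset.sum_congr rfl fun j _ => ?_
    rw [map_mul, ha, hb]
    rfl
  rw [h1, Ideal.Quotient.eq_zero_iff_mem, mem_Sml]
  have h2 : ∀ k, (∑ j, a j * b j : Acc σ).1 k = ∑ j, ((n j).1 k : ℝ) * z j := by
    intro k
    have e1 : (∑ j, a j * b j : Acc σ).1 = ∑ j, (a j * b j : Acc σ).1 := by
      exact map_sum (Acc σ).subtype _ _
    rw [e1, Finset.sum_apply]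
    refine Finset.sum_congr rfl fun j _ => ?_
    rw [ha, hb]
    rfl
  simp only [h2]

end Pool.Agent.Helper17K9.NR
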