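import Pool.Agent.Helper17K9.NR.Win

set_option autoImplicit false

/-!
# All weights up to `N`
-/

open Polynomial

namespace Pool.Agent.Helper17K9.NR

variable {K L : Type} [Field K] [Field L] [Algebra K L]
variable {S : Submodule K L} {x y : L}

/-- all weights at most `N` -/
theorem upto {N : ℕ} (hS : Cont S x y (Finset.range (N + 1))) (hx : Transcendental K x)
    (h1 : ∀ a b : K, y ≠ algebraMap K L a + algebraMap K L b * x) :
    ((2 * N / 3 + 1 : ℕ) : Cardinal) ≤ Module.rank K S := by
  have mon : ∀ a b : ℕ, 2 * a + 3 * b ≤ N → x ^ a * y ^ b ∈ S := fun a b h =>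
    hS a b (Finset.mem_range.2 (by omega))
  have fin2 : ∀ A B : K[X], IsCoprime A B → A ≠ 0 → 0 < A.natDegree → aeval x A * y = aeval x B →
      ((2 * N / 3 + 1 : ℕ) : Cardinal) ≤ Module.rank K S := by
    intro A B hc hA hdeg h
    refine le_trans ?_ (rank_of_inj S (pm x y y) (case_two _ _ hx A B hc hdeg h) (N / 2 + 1) (N / 3) ?_ ?_)
    · exact_mod_cast (by omega : 2 * N / 3 + 1 ≤ N / 2 + 1 + N / 3)
    · intro b hb
      have h1 := mon b 0 (by omega)
      rw [pm_apply]
      simpa using h1
    · intro b hb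
      have h1 := mon 0 (b + 1) (by omega)
      rw [pm_apply]
      simpa [pow_succ, mul_comm] using h1
  rcases cases3 x y hx h1 with h | ⟨A, B, hA0, hc, hA, h⟩ | ⟨e, he, B, hB, h⟩ | ⟨P, hP, h⟩
  · refine le_trans ?_ (rank_of_inj S (pm x y x) (case_one _ _ hx h) (N / 2 + 1) ((N - 1) / 2) ?_ ?_)
    · exact_mod_cast (by omega : 2 * N / 3 + 1 ≤ N / 2 + 1 + (N - 1) / 2)
    · intro b hb
      have h1 := mon b 0 (by omega)
      rw [pm_apply]
      simpa using h1
    · intro b hb
      have h1 := mon b 1 (by omega)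
      rw [pm_apply]
      simpa [mul_comm] using h1
  · refine fin2 A B hc hA0 ?_ h
    by_contra hlt
    refine hA 0 ?_
    rw [pow_zero]
    refine IsUnit.dvd ?_
    rw [isUnit_iff_degree_eq_zero, degree_eq_natDegree hA0]
    have : A.natDegree = 0 := by omega
    rw [this]
    rfl
  · refine fin2 (X ^ e) B ?_ (pow_ne_zero _ X_ne_zero) ?_ ?_
    · exact IsCoprime.pow_left ((irreducible_X.coprime_iff_not_dvd).2 hB)
    · rw [natDegree_X_pow]
      omega
    · rw [map_pow, aeval_X]
      exact h
  · refine le_trans ?_ (rank_of_inj S (pm y x y) (case_three _ _ hx _ hP h) (N / 3 + 1) ((N + 1) / 3) ?_ ?_)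
    · exact_mod_cast (by omega : 2 * N / 3 + 1 ≤ N / 3 + 1 + (N + 1) / 3)
    · intro b hb
      have h1 := mon 0 b (by omega)
      rw [pm_apply]
      simpa using h1
    · intro b hb
      have h1 := mon 1 b (by omega)
      rw [pm_apply]
      simpa using h1

end Pool.Agent.Helper17K9.NR
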