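import Mathlib

set_option autoImplicit false

/-!
# Ranks of spans of monomials `x^a y^b`, `x` transcendental
-/

open Polynomial

namespace Pool.Agent.Helper17K9.NR

variable {K L : Type} [Field K] [Field L] [Algebra K L]

open Classical in
/-- a triangular sequence is linearly independent -/
theorem tri {V : Type*} [AddCommGroup V] [Module K V] (m : ℕ) (v : ℕ → V) (U : ℕ → Submodule K V)
    (h1 : ∀ i < m, v i ∉ U i) (h2 : ∀ i j, i < j → j < m → v j ∈ U i) :
    LinearIndependent K (fun i : Fin m => v i) := by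
  rw [Fintype.linearIndependent_iff]
  intro g hg
  by_contra hcon
  push Not at hcon
  -- the first index with nonzero coefficient
  have hne : (Finset.univ.filter fun i : Fin m => g i ≠ 0).Nonempty := by
    obtain ⟨i, hi⟩ := hcon
    exact ⟨i, by simp [hi]⟩
  obtain ⟨i, hi, hmin⟩ := Finset.exists_min_image _ (fun i : Fin m => (i : ℕ)) hne
  have hgi : g i ≠ 0 := by simpa using hi
  apply h1 i i.2
  have h3 : g i • v i = -∑ j ∈ Finset.univ.erase i, g j • v j := by
    rw [← Finset.add_sum_erase _ _ (Finset.mem_univ i)] at hg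
    exact eq_neg_of_add_eq_zero_left hg
  have h4 : g i • v i ∈ U i := by
    rw [h3]
    refine Submodule.neg_mem _ (Submodule.sum_mem _ fun j hj => ?_)
    by_cases hgj : g j = 0
    · rw [hgj, zero_smul]
      exact Submodule.zero_mem _
    · have h5 : (i : ℕ) ≤ j := hmin j (by simp [hgj])
      have h6 : (i : ℕ) ≠ j := by
        intro h
        exact (Finset.mem_erase.1 hj).1 (Fin.ext h.symm)
      exact Submodule.smul_mem _ _ (h2 i j (lt_of_le_of_ne h5 h6) j.2)
  have h7 := Submodule.smul_mem (U i) (g i)⁻¹ h4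
  rwa [smul_smul, inv_mul_cancel₀ hgi, one_smul] at h7

/-- rank of a space of numbers from a triangular sequence of polynomials -/
theorem rank_seq (S : Submodule K L) (x : L) (hx : Transcendental K x) (c : L)
    (m : ℕ) (v : ℕ → K[X]) (w : ℕ → L) (hw : ∀ i < m, w i ∈ S)
    (hv : ∀ i < m, c * w i = aeval x (v i)) (U : ℕ → Submodule K K[X])
    (h1 : ∀ i < m, v i ∉ U i) (h2 : ∀ i j, i < j → j < m → v j ∈ U i) :
    (m : Cardinal) ≤ Module.rank K S := by
  have h3 := tri m v U h1 h2
  have hker : LinearMap.ker (aeval x : K[X] →ₐ[K] L).toLinearMap = ⊥ := by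
    rw [eq_bot_iff]
    intro P hP
    have : aeval x P = 0 := hP
    rw [(transcendental_iff.1 hx) P this]
    exact Submodule.zero_mem _
  have h4 := h3.map' _ hker
  have h5 : LinearIndependent K (fun i : Fin m => c * w i) := by
    have e : (fun i : Fin m => c * w i) =
        ((aeval x : K[X] →ₐ[K] L).toLinearMap ∘ fun i : Fin m => v i) := funext fun i => hv i i.2
    rw [e]
    exact h4
  have h6 : LinearIndependent K (fun i : Fin m => (⟨w i, hw i i.2⟩ : S)) := by
    refine LinearIndependent.of_comp ((LinearMap.mulLeft K c).comp S.subtype) ?_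
    exact h5
  simpa using h6.cardinal_le_rank

/-- the polynomials divisible by `Q` -/
noncomputable def mult (Q : K[X]) : Submodule K K[X] := (Ideal.span {Q}).restrictScalars K

theorem mem_mult {Q P : K[X]} : P ∈ mult Q ↔ Q ∣ P := by
  rw [mult, Submodule.restrictScalars_mem, Ideal.mem_span_singleton]

/-- `S` contains all the monomials with `2 a + 3 b` in `W` -/
def Cont (S : Submodule K L) (x y : L) (W : Finset ℕ) : Prop :=
  ∀ a b : ℕ, 2 * a + 3 * b ∈ W → x ^ a * y ^ b ∈ S

variable {S : Submodule K L} {x y : L} {W : Finset ℕ}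

/-- first case: `y` is not a rational function of `x` -/
theorem case1 (hS : Cont S x y W) (hx : Transcendental K x)
    (h : ∀ A B : K[X], aeval x A * y = aeval x B → A = 0) (hW : ∀ n ∈ W, 2 ≤ n) :
    (W.card : Cardinal) ≤ Module.rank K S := by
  classical
  let w : W → L := fun i => if (i : ℕ) % 2 = 0 then x ^ ((i : ℕ) / 2) else
    x ^ (((i : ℕ) - 3) / 2) * y
  have hw : ∀ i, w i ∈ S := by
    intro i
    have hi := hW i i.2
    simp only [w]
    split_ifs with h0
    · have := hS ((i : ℕ) / 2) 0 (by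
        have e : 2 * ((i : ℕ) / 2) + 3 * 0 = i := by omega
        rw [e]
        exact i.2)
      simpa using this
    · have := hS (((i : ℕ) - 3) / 2) 1 (by
        have e : 2 * (((i : ℕ) - 3) / 2) + 3 * 1 = i := by omega
        rw [e]
        exact i.2)
      simpa using this
  have hli : LinearIndependent K w := by
    rw [Fintype.linearIndependent_iff]
    intro g hg
    let A : K[X] := ∑ i : W, if (i : ℕ) % 2 = 0 then 0 else
      monomial (((i : ℕ) - 3) / 2) (g i)
    let B : K[X] := ∑ i : W, if (i : ℕ) % 2 = 0 then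
      monomial ((i : ℕ) / 2) (g i) else 0
    have h1 : aeval x A * y = aeval x (-B) := by
      have e1 : aeval x A * y + aeval x B = 0 := by
        rw [← hg, map_sum, map_sum, Finset.sum_mul, ← Finset.sum_add_distrib]
        refine Finset.sum_congr rfl fun i _ => ?_
        simp only [w]
        split_ifs with h0
        · rw [map_zero, zero_mul, zero_add, aeval_monomial, Algebra.smul_def]
        · rw [map_zero, add_zero, aeval_monomial, Algebra.smul_def]
          ring
      rw [map_neg]
      linear_combination e1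
    have hA := h A (-B) h1
    have hB : B = 0 := by
      rw [hA, map_zero, zero_mul, map_neg, zero_eq_neg] at h1
      exact (transcendental_iff.1 hx) B h1
    intro i
    have hi := hW i i.2
    by_cases h0 : (i : ℕ) % 2 = 0
    · have h2 := congrArg (fun P => coeff P ((i : ℕ) / 2)) hB
      simp only [B, finsetSum_coeff, coeff_zero] at h2
      rw [Finset.sum_eq_single i] at h2
      · rw [if_pos h0, coeff_monomial_same] at h2
        exact h2
      · intro j _ hj
        have hj2 := hW j j.2
        split_ifs with h3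
        · rw [coeff_monomial, if_neg]
          intro h4
          apply hj
          apply Subtype.ext
          omega
        · simp
      · simp
    · have h2 := congrArg (fun P => coeff P (((i : ℕ) - 3) / 2)) hA
      simp only [A, finsetSum_coeff, coeff_zero] at h2
      rw [Finset.sum_eq_single i] at h2
      · rw [if_neg h0, coeff_monomial_same] at h2
        exact h2
      · intro j _ hj
        have hj2 := hW j j.2
        split_ifs with h3
        · simp
        · rw [coeff_monomial, if_neg]
          intro h4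
          apply hj
          apply Subtype.ext
          omega
      · simp
  have h5 : LinearIndependent K (fun i => (⟨w i, hw i⟩ : S)) := by
    refine LinearIndependent.of_comp S.subtype ?_
    exact hli
  simpa using h5.cardinal_le_rank

/-! ## `y = B(x) / A(x)` -/

/-- a sequence of monomials with `y = B(x) / A(x)` -/
theorem rank_rat (hS : Cont S x y W) (hx : Transcendental K x) (A B : K[X])
    (h : aeval x A * y = aeval x B) (L m : ℕ) (a b : ℕ → ℕ)
    (hab : ∀ i < m, 2 * a i + 3 * b i ∈ W) (hb : ∀ i < m, b i ≤ L) (U : ℕ → Submodule K K[X])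
    (h1 : ∀ i < m, X ^ a i * B ^ b i * A ^ (L - b i) ∉ U i)
    (h2 : ∀ i j, i < j → j < m → X ^ a j * B ^ b j * A ^ (L - b j) ∈ U i) :
    (m : Cardinal) ≤ Module.rank K S := by
  refine rank_seq S x hx ((aeval x A) ^ L) m (fun i => X ^ a i * B ^ b i * A ^ (L - b i))
    (fun i => x ^ a i * y ^ b i) (fun i hi => hS _ _ (hab i hi)) (fun i hi => ?_) U h1 h2
  rw [map_mul, map_mul, map_pow, map_pow, map_pow, aeval_X, ← h, mul_pow]
  have e : (aeval x A) ^ L = (aeval x A) ^ b i * (aeval x A) ^ (L - b i) := by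
    rw [← pow_add]
    congr 1
    have := hb i hi
    omega
  rw [e]
  ring

theorem notdvd_A {A B : K[X]} (hc : IsCoprime A B) (hA : ∀ m, ¬ A ∣ X ^ m) (hA0 : A ≠ 0) (a b k : ℕ) :
    ¬ A ^ (k + 1) ∣ X ^ a * B ^ b * A ^ k := by
  intro h
  rw [pow_succ, mul_comm (A ^ k) A] at h
  have h1 := (mul_dvd_mul_iff_right (pow_ne_zero k hA0)).1 h
  exact hA a ((hc.pow_right (n := b)).dvd_of_dvd_mul_right h1)

/-- the window, with poles outside `0` -/
theorem case2a {N M : ℕ} (hS : Cont S x y (Finset.Icc N M)) (hx : Transcendental K x) (A B : K[X])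
    (h : aeval x A * y = aeval x B) (hc : IsCoprime A B) (hA : ∀ m, ¬ A ∣ X ^ m) (hA0 : A ≠ 0)
    (hNM : N + 1 ≤ M) :
    ((M / 3 + (M / 2 + 1 - (N + 1) / 2) : ℕ) : Cardinal) ≤ Module.rank K S := by
  let b : ℕ → ℕ := fun i => M / 3 - i
  let a : ℕ → ℕ := fun i => if i < M / 3 then (M - 3 * (M / 3 - i)) / 2 else M / 2 - (i - M / 3)
  refine rank_rat hS hx A B h (M / 3) _ a b (fun i hi => ?_) (fun i hi => ?_)
    (fun i => if i < M / 3 then mult (A ^ (i + 1)) else
      degreeLT K (a i + (A ^ (M / 3)).natDegree)) (fun i hi => ?_) (fun i j hij hj => ?_)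
  · rw [Finset.mem_Icc]
    simp only [a, b]
    split_ifs with h0 <;> omega
  · simp only [b]
    omega
  · by_cases h0 : i < M / 3
    · rw [if_pos h0, mem_mult]
      have e : M / 3 - b i = i := by
        simp only [b]
        omega
      rw [e]
      exact notdvd_A hc hA hA0 _ _ _
    · rw [if_neg h0, mem_degreeLT]
      have e : b i = 0 := by
        simp only [b]
        omega
      rw [e, pow_zero, mul_one, Nat.sub_zero, degree_mul, degree_X_pow,
        degree_eq_natDegree (pow_ne_zero _ hA0), not_lt]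
      push_cast
      exact le_rfl
  · by_cases h0 : i < M / 3
    · rw [if_pos h0, mem_mult]
      refine Dvd.dvd.mul_left (pow_dvd_pow A ?_) _
      simp only [b]
      omega
    · rw [if_neg h0, mem_degreeLT]
      have e : b j = 0 := by
        simp only [b]
        omega
      rw [e, pow_zero, mul_one, Nat.sub_zero, degree_mul, degree_X_pow,
        degree_eq_natDegree (pow_ne_zero _ hA0)]
      have h3 : a j < a i := by
        simp only [a]
        rw [if_neg h0, if_neg (by omega)]
        omega
      have h4 : a j + (A ^ (M / 3)).natDegree < a i + (A ^ (M / 3)).natDegree := by omega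
      exact_mod_cast h4

/-- one weight, with poles outside `0` -/
theorem one2a {M : ℕ} (hS : Cont S x y W) (hM : M ∈ W) (hx : Transcendental K x) (A B : K[X])
    (h : aeval x A * y = aeval x B) (hc : IsCoprime A B) (hA : ∀ m, ¬ A ∣ X ^ m) (hA0 : A ≠ 0)
    (hM2 : 2 ≤ M) :
    ((2 * M / 3 + 1 - (M + 1) / 2 : ℕ) : Cardinal) ≤ Module.rank K S := by
  set D := 2 * M / 3 - (M + 1) / 2 with hD
  have eD : 2 * M / 3 + 1 - (M + 1) / 2 = D + 1 := by omega
  rw [eD]
  let b : ℕ → ℕ := fun i => M % 2 + 2 * (D - i)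
  let a : ℕ → ℕ := fun i => (M - 3 * b i) / 2
  refine rank_rat hS hx A B h M _ a b (fun i hi => ?_) (fun i hi => ?_)
    (fun i => mult (A ^ (M - b i + 1))) (fun i hi => ?_) (fun i j hij hj => ?_)
  · have e : 2 * a i + 3 * b i = M := by
      simp only [a, b]
      obtain ⟨k, hk | hk⟩ := Nat.even_or_odd' M <;> omega
    rw [e]
    exact hM
  · simp only [b]
    omega
  · rw [mem_mult]
    exact notdvd_A hc hA hA0 _ _ _
  · rw [mem_mult]
    refine Dvd.dvd.mul_left (pow_dvd_pow A ?_) _
    simp only [b]
    omega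

/-! ## `y = B(x) / x ^ e` -/

/-- a sequence of monomials with `y = B(x) / x ^ e`, of increasing order at `0` -/
theorem rank_lau (hS : Cont S x y W) (hx : Transcendental K x) (B : K[X]) (e : ℕ)
    (h : x ^ e * y = aeval x B) (hB : ¬ X ∣ B) (L m : ℕ) (a b : ℕ → ℕ)
    (hab : ∀ i < m, 2 * a i + 3 * b i ∈ W) (hb : ∀ i < m, b i ≤ L)
    (h2 : ∀ i j, i < j → j < m → a i + e * (L - b i) < a j + e * (L - b j)) :
    (m : Cardinal) ≤ Module.rank K S := by
  have hk : ∀ a b : ℕ, X ^ a * B ^ b * (X ^ e) ^ (L - b) = X ^ (a + e * (L - b)) * B ^ b := by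
    intro a b
    rw [← pow_mul, pow_add]
    ring
  refine rank_rat hS hx (X ^ e) B (by rw [map_pow, aeval_X]; exact h) L m a b hab hb
    (fun i => mult (X ^ (a i + e * (L - b i) + 1))) (fun i hi => ?_) (fun i j hij hj => ?_)
  · rw [mem_mult, hk]
    intro h3
    rw [pow_succ] at h3
    have h4 := (mul_dvd_mul_iff_left (pow_ne_zero _ X_ne_zero)).1 h3
    exact hB (prime_X.dvd_of_dvd_pow h4)
  · rw [mem_mult, hk]
    exact Dvd.dvd.mul_right (pow_dvd_pow X (by have := h2 i j hij hj; omega)) _

/-- the window, with poles at `0` only -/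
theorem case2b {N M : ℕ} (hS : Cont S x y (Finset.Icc N M)) (hx : Transcendental K x) (B : K[X]) (e : ℕ)
    (he : 1 ≤ e) (h : x ^ e * y = aeval x B) (hB : ¬ X ∣ B) (hNM : N + 1 ≤ M) :
    ((M / 3 + (M / 2 + 1 - (N + 1) / 2) : ℕ) : Cardinal) ≤ Module.rank K S := by
  let b : ℕ → ℕ := fun i => M / 3 - i
  let a : ℕ → ℕ := fun i => if i < M / 3 then (N + 1 - 3 * (M / 3 - i)) / 2 else
    (N + 1) / 2 + (i - M / 3)
  refine rank_lau hS hx B e h hB (M / 3) _ a b (fun i hi => ?_) (fun i hi => ?_)
    (fun i j hij hj => ?_)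
  · rw [Finset.mem_Icc]
    simp only [a, b]
    split_ifs with h0 <;> omega
  · simp only [b]
    omega
  · by_cases h0 : i < M / 3
    · have h3 : a i ≤ a j := by
        simp only [a]
        rw [if_pos h0]
        split_ifs <;> omega
      have h4 : M / 3 - b i + 1 ≤ M / 3 - b j := by
        simp only [b]
        omega
      have h5 := Nat.mul_le_mul_left e h4
      rw [mul_add, mul_one] at h5
      omega
    · have h3 : a i < a j := by
        simp only [a]
        rw [if_neg h0, if_neg (by omega)]
        omega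
      have h4 : M / 3 - b i ≤ M / 3 - b j := by
        simp only [b]
        omega
      have h5 := Nat.mul_le_mul_left e h4
      omega

/-- one weight, with poles at `0` only -/
theorem one2b {M : ℕ} (hS : Cont S x y W) (hM : M ∈ W) (hx : Transcendental K x) (B : K[X]) (e : ℕ)
    (h : x ^ e * y = aeval x B) (hB : ¬ X ∣ B) (hM2 : 2 ≤ M) :
    ((2 * M / 3 + 1 - (M + 1) / 2 : ℕ) : Cardinal) ≤ Module.rank K S := by
  set D := 2 * M / 3 - (M + 1) / 2 with hD
  have eD : 2 * M / 3 + 1 - (M + 1) / 2 = D + 1 := by omega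
  rw [eD]
  let b : ℕ → ℕ := fun i => M % 2 + 2 * (D - i)
  let a : ℕ → ℕ := fun i => (M - 3 * b i) / 2
  refine rank_lau hS hx B e h hB M _ a b (fun i hi => ?_) (fun i hi => ?_)
    (fun i j hij hj => ?_)
  · have e : 2 * a i + 3 * b i = M := by
      simp only [a, b]
      obtain ⟨k, hk | hk⟩ := Nat.even_or_odd' M <;> omega
    rw [e]
    exact hM
  · simp only [b]
    omega
  · have h3 : a i < a j := by
      simp only [a, b]
      omega
    have h4 : M - b i ≤ M - b j := by
      simp only [b]
      omega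
    have h5 := Nat.mul_le_mul_left e h4
    omega

/-! ## `y = P(x)` -/

/-- a sequence of monomials with `y = P(x)`, the first ones of increasing order, the others of decreasing
degree -/
theorem rank_pol (hS : Cont S x y W) (hx : Transcendental K x) (P : K[X])
    (h : y = aeval x P) (m : ℕ) (a b : ℕ → ℕ)
    (hab : ∀ i < m, 2 * a i + 3 * b i ∈ W) (U : ℕ → Submodule K K[X])
    (h1 : ∀ i < m, X ^ a i * P ^ b i ∉ U i)
    (h2 : ∀ i j, i < j → j < m → X ^ a j * P ^ b j ∈ U i) :
    (m : Cardinal) ≤ Module.rank K S := by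
  refine rank_seq S x hx 1 m (fun i => X ^ a i * P ^ b i)
    (fun i => x ^ a i * y ^ b i) (fun i hi => hS _ _ (hab i hi)) (fun i hi => ?_) U h1 h2
  rw [map_mul, map_pow, map_pow, aeval_X, ← h, one_mul]

theorem deg_mon {P : K[X]} (hP : P ≠ 0) (a b : ℕ) :
    degree (X ^ a * P ^ b) = ((a + P.natDegree * b : ℕ) : WithBot ℕ) := by
  rw [degree_mul, degree_X_pow, degree_pow, degree_eq_natDegree hP]
  push_cast
  rw [nsmul_eq_mul]
  ring

theorem rank_deg (hS : Cont S x y W) (hx : Transcendental K x) (P : K[X]) (hP : P ≠ 0)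
    (h : y = aeval x P) (m : ℕ) (a b : ℕ → ℕ)
    (hab : ∀ i < m, 2 * a i + 3 * b i ∈ W)
    (h2 : ∀ i j, i < j → j < m → a j + P.natDegree * b j < a i + P.natDegree * b i) :
    (m : Cardinal) ≤ Module.rank K S := by
  refine rank_pol hS hx P h m a b hab (fun i => degreeLT K (a i + P.natDegree * b i))
    (fun i hi => ?_) (fun i j hij hj => ?_)
  · rw [mem_degreeLT, deg_mon hP]
    exact lt_irrefl _
  · rw [mem_degreeLT, deg_mon hP]
    exact_mod_cast h2 i j hij hj

/-- degree at least 3 -/
theorem case3a {N M : ℕ} (hS : Cont S x y (Finset.Icc N M)) (hx : Transcendental K x) (P : K[X])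
    (hP : 3 ≤ P.natDegree) (h : y = aeval x P) (hNM : N + 1 ≤ M) :
    ((M / 3 + (M / 2 + 1 - (N + 1) / 2) : ℕ) : Cardinal) ≤ Module.rank K S := by
  have hP0 : P ≠ 0 := by
    rintro rfl
    simp at hP
  let b : ℕ → ℕ := fun i => M / 3 - i
  let a : ℕ → ℕ := fun i => if i < M / 3 then (M - 3 * (M / 3 - i)) / 2 else M / 2 - (i - M / 3)
  refine rank_deg hS hx P hP0 h _ a b (fun i hi => ?_) (fun i j hij hj => ?_)
  · rw [Finset.mem_Icc]
    simp only [a, b]
    split_ifs with h0 <;> omega
  · set d := P.natDegree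
    by_cases h0 : i < M / 3
    · -- `b j < b i`
      obtain ⟨k, hk⟩ : ∃ k, b i = b j + k := ⟨b i - b j, by simp only [b]; omega⟩
      have hk1 : 1 ≤ k := by
        simp only [b] at hk
        omega
      have h5 : 3 * k ≤ d * k := Nat.mul_le_mul_right k hP
      have h6 : a j < a i + 3 * k := by
        simp only [a]
        simp only [b] at hk
        rw [if_pos h0]
        split_ifs <;> omega
      rw [hk, mul_add]
      omega
    · have e1 : b i = 0 := by simp only [b]; omega
      have e2 : b j = 0 := by simp only [b]; omega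
      rw [e1, e2]
      simp only [a]
      rw [if_neg h0, if_neg (by omega)]
      omega

/-- one weight, `y` a polynomial in `x` of degree at least `2` -/
theorem one3 {M : ℕ} (hS : Cont S x y W) (hM : M ∈ W) (hx : Transcendental K x) (P : K[X])
    (hP : 2 ≤ P.natDegree) (h : y = aeval x P) (hM2 : 2 ≤ M) :
    ((2 * M / 3 + 1 - (M + 1) / 2 : ℕ) : Cardinal) ≤ Module.rank K S := by
  have hP0 : P ≠ 0 := by
    rintro rfl
    simp at hP
  set D := 2 * M / 3 - (M + 1) / 2 with hD
  have eD : 2 * M / 3 + 1 - (M + 1) / 2 = D + 1 := by omega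
  rw [eD]
  let b : ℕ → ℕ := fun i => M % 2 + 2 * (D - i)
  let a : ℕ → ℕ := fun i => (M - 3 * b i) / 2
  refine rank_deg hS hx P hP0 h _ a b (fun i hi => ?_) (fun i j hij hj => ?_)
  · have e : 2 * a i + 3 * b i = M := by
      simp only [a, b]
      obtain ⟨k, hk | hk⟩ := Nat.even_or_odd' M <;> omega
    rw [e]
    exact hM
  · set d := P.natDegree
    obtain ⟨k, hk⟩ : ∃ k, b i = b j + k := ⟨b i - b j, by simp only [b]; omega⟩
    have hk1 : 1 ≤ k := by
      simp only [b] at hk
      omega
    have h5 : 2 * k ≤ d * k := Nat.mul_le_mul_right k hP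
    have h6 : a j < a i + 2 * k := by
      simp only [a]
      simp only [b] at hk ⊢
      omega
    have h7 : d * b i = d * b j + d * k := by rw [hk, Nat.mul_add]
    omega

/-- degree 2, short windows -/
theorem case3b {N M : ℕ} (hS : Cont S x y (Finset.Icc N M)) (hx : Transcendental K x) (P : K[X])
    (hP : P.natDegree = 2) (h : y = aeval x P) (hNM : N ≤ M) :
    ((2 * M / 3 + 1 - (N + 1) / 2 : ℕ) : Cardinal) ≤ Module.rank K S := by
  have hP0 : P ≠ 0 := by
    rintro rfl
    simp at hP
  let b : ℕ → ℕ := fun i => 2 * (2 * M / 3 - i) - M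
  let a : ℕ → ℕ := fun i => (2 * M / 3 - i) - 2 * (2 * (2 * M / 3 - i) - M)
  refine rank_deg hS hx P hP0 h _ a b (fun i hi => ?_) (fun i j hij hj => ?_)
  · rw [Finset.mem_Icc]
    simp only [a, b]
    omega
  · rw [hP]
    simp only [a, b]
    omega

theorem notdvd_X {P : K[X]} (hP : ¬ X ∣ P) (a b : ℕ) : ¬ X ^ (a + 1) ∣ X ^ a * P ^ b := by
  intro h3
  rw [pow_succ] at h3
  have h4 := (mul_dvd_mul_iff_left (pow_ne_zero _ X_ne_zero)).1 h3
  exact hP (prime_X.dvd_of_dvd_pow h4)

/-- degree 2, long windows, `P = X * Q` -/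
theorem case3c {N M : ℕ} (hS : Cont S x y (Finset.Icc N M)) (hx : Transcendental K x) (Q : K[X])
    (hP : (X * Q).natDegree = 2) (hQ : ¬ X ∣ Q) (h : y = aeval x (X * Q)) (hNM : N ≤ M)
    (hlong : N / 2 + 1 ≤ (M + 2) / 3) :
    ((2 * M / 3 + 1 - (N + 2) / 3 : ℕ) : Cardinal) ≤ Module.rank K S := by
  have hP0 : X * Q ≠ 0 := by
    intro h0
    rw [h0] at hP
    simp at hP
  have hF : ∀ a b : ℕ, (X : K[X]) ^ a * (X * Q) ^ b = X ^ (a + b) * Q ^ b := by
    intro a b
    rw [mul_pow, pow_add]
    ring
  set σ := (N + 1) / 2 with hσ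
  set s0 := (N + 2) / 3 with hs0
  have h01 : s0 ≤ σ := by omega
  let t : ℕ → ℕ := fun i => 2 * M / 3 - (i - (σ - s0))
  let b : ℕ → ℕ := fun i => if i < σ - s0 then N - 2 * (s0 + i) else 2 * t i - M
  let a : ℕ → ℕ := fun i => if i < σ - s0 then 3 * (s0 + i) - N else t i - 2 * (2 * t i - M)
  refine rank_pol hS hx (X * Q) h _ a b (fun i hi => ?_)
    (fun i => if i < σ - s0 then mult (X ^ (s0 + i + 1)) else degreeLT K (t i))
    (fun i hi => ?_) (fun i j hij hj => ?_)
  · rw [Finset.mem_Icc]
    simp only [a, b, t]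
    split_ifs with h0 <;> omega
  · by_cases h0 : i < σ - s0
    · rw [if_pos h0, mem_mult, hF]
      have e : a i + b i = s0 + i := by
        simp only [a, b]
        rw [if_pos h0, if_pos h0]
        omega
      rw [e]
      exact notdvd_X hQ _ _
    · rw [if_neg h0, mem_degreeLT, deg_mon hP0, hP]
      have e : a i + 2 * b i = t i := by
        simp only [a, b, t]
        rw [if_neg h0, if_neg h0]
        omega
      rw [e]
      exact lt_irrefl _
  · by_cases h0 : i < σ - s0
    · rw [if_pos h0, mem_mult, hF]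
      refine Dvd.dvd.mul_right (pow_dvd_pow X ?_) _
      simp only [a, b, t]
      split_ifs with h1 <;> omega
    · rw [if_neg h0, mem_degreeLT, deg_mon hP0, hP]
      have e : a j + 2 * b j < t i := by
        simp only [a, b, t]
        rw [if_neg (by omega), if_neg (by omega)]
        omega
      exact_mod_cast e

/-- degree 2, long windows, `P` not a multiple of `X` -/
theorem case3d {N M : ℕ} (hS : Cont S x y (Finset.Icc N M)) (hx : Transcendental K x) (P : K[X])
    (hP : P.natDegree = 2) (hQ : ¬ X ∣ P) (h : y = aeval x P) (hNM : N + 2 ≤ M)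
    (hlong : N / 2 + 1 ≤ (M + 2) / 3) :
    (((2 * M - (N + 1) / 2) / 3 + 1 : ℕ) : Cardinal) ≤ Module.rank K S := by
  have hP0 : P ≠ 0 := by
    rintro rfl
    simp at hP
  set σ := (N + 1) / 2 with hσ
  let t : ℕ → ℕ := fun i => (2 * M - σ) / 3 - (i - σ)
  let b : ℕ → ℕ := fun i => if i < σ then (N - 2 * i + 2) / 3 else 2 * t i - M
  let a : ℕ → ℕ := fun i => if i < σ then i else t i - 2 * (2 * t i - M)
  refine rank_pol hS hx P h _ a b (fun i hi => ?_)
    (fun i => if i < σ then mult (X ^ (i + 1)) else degreeLT K (t i))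
    (fun i hi => ?_) (fun i j hij hj => ?_)
  · rw [Finset.mem_Icc]
    simp only [a, b, t]
    split_ifs with h0 <;> omega
  · by_cases h0 : i < σ
    · rw [if_pos h0, mem_mult]
      have e : a i = i := by
        simp only [a]
        rw [if_pos h0]
      rw [e]
      exact notdvd_X hQ _ _
    · rw [if_neg h0, mem_degreeLT, deg_mon hP0, hP]
      have e : a i + 2 * b i = t i := by
        simp only [a, b, t]
        rw [if_neg h0, if_neg h0]
        omega
      rw [e]
      exact lt_irrefl _
  · by_cases h0 : i < σ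
    · rw [if_pos h0, mem_mult]
      refine Dvd.dvd.mul_right (pow_dvd_pow X ?_) _
      simp only [a, b, t]
      split_ifs with h1 <;> omega
    · rw [if_neg h0, mem_degreeLT, deg_mon hP0, hP]
      have e : a j + 2 * b j < t i := by
        simp only [a, b, t]
        rw [if_neg (by omega), if_neg (by omega)]
        omega
      exact_mod_cast e

end Pool.Agent.Helper17K9.NR
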