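import Pool.Agent.Helper17K9.NR.Trans
import Pool.Agent.Helper17K9.NR.Low
import Pool.Agent.TH647.NR.Zeta34
import Pool.Agent.TH647.NR.Zeta
import Pool.Agent.TH456.TM.Inst
import Pool.Agent.H447R2.MZ.Dich

set_option autoImplicit false

/-!
# Near relations between multiple zeta values
-/

namespace Pool.Agent.Helper17K9.NR

open Filter Module Polynomial

lemma rpow_le_npow {H κ : ℝ} (hH : 1 ≤ H) {k : ℕ} (hk : κ ≤ k) : H ^ κ ≤ H ^ k := by
  rw [← Real.rpow_natCast]
  exact Real.rpow_le_rpow_of_exponent_le hH hk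

lemma mea_of_meas {m : ℕ} (y : Fin (m + 1) → ℝ) (w c : ℝ) (hc : 0 < c) (h : Pool.Agent.W472.AC.Meas y w c) : Mea y := by
  refine ⟨⌈w⌉₊, c, hc, fun a ha H hH hb => (h a ha H hH hb).trans ?_⟩
  exact mul_le_mul_of_nonneg_right (rpow_le_npow hH (Nat.le_ceil w)) (abs_nonneg _)

/-- the transcendence measure of `π ^ 2` -/
theorem mea_pi (m : ℕ) : Mea (fun j : Fin m => (Real.pi ^ 2) ^ (j : ℕ)) := by
  obtain ⟨κ, c, hκ, hc, h⟩ := Pool.Agent.TH456.TM.measT_pi (2 * m)
  refine ⟨⌈κ⌉₊, c, hc, fun a ha H hH hb => ?_⟩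
  obtain ⟨P, hP⟩ : ∃ P : ℤ[X], P = ∑ j : Fin m, monomial (2 * (j : ℕ)) (a j) := ⟨_, rfl⟩
  have hcoef : ∀ i, P.coeff i = ∑ j : Fin m, if 2 * (j : ℕ) = i then a j else 0 := by
    intro i
    rw [hP, finsetSum_coeff]
    exact Finset.sum_congr rfl fun j _ => coeff_monomial
  have hcoef2 : ∀ j : Fin m, P.coeff (2 * (j : ℕ)) = a j := by
    intro j
    rw [hcoef, Finset.sum_eq_single j]
    · rw [if_pos rfl]
    · intro b _ hbj
      rw [if_neg]
      intro h
      exact hbj (Fin.ext (by omega))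
    · intro h
      exact absurd (Finset.mem_univ _) h
  have hP0 : P ≠ 0 := by
    intro h0
    apply ha
    funext j
    rw [← hcoef2 j, h0, coeff_zero]
    rfl
  have hdeg : P.natDegree ≤ 2 * m := by
    rw [natDegree_le_iff_coeff_eq_zero]
    intro i hi
    rw [hcoef]
    refine Finset.sum_eq_zero fun j _ => ?_
    rw [if_neg]
    have := j.2
    omega
  have hbd : ∀ i, |(P.coeff i : ℝ)| ≤ H := by
    intro i
    by_cases hi : ∃ j : Fin m, 2 * (j : ℕ) = i
    · obtain ⟨j, rfl⟩ := hi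
      rw [hcoef2]
      exact hb j
    · rw [hcoef, Finset.sum_eq_zero, Int.cast_zero, abs_zero]
      · linarith
      · intro j _
        rw [if_neg]
        exact fun h => hi ⟨j, h⟩
  have h1 := h P hP0 hdeg H hH hbd
  have h2 : aeval (Real.pi : ℂ) P = ((∑ j : Fin m, (a j : ℝ) * (Real.pi ^ 2) ^ (j : ℕ) : ℝ) : ℂ) := by
    rw [hP, map_sum]
    push_cast
    refine Finset.sum_congr rfl fun j _ => ?_
    rw [aeval_monomial, pow_mul]
    simp
  rw [h2, Complex.norm_real, Real.norm_eq_abs] at h1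
  exact h1.trans (mul_le_mul_of_nonneg_right (rpow_le_npow hH (Nat.le_ceil κ)) (abs_nonneg _))

/-- the general principle -/
theorem near_general {m r : ℕ} (h : Fin m → ℝ) (D : ℕ)
    (hD : ∀ σ : Scale, D ≤ finrank (KK σ) (Submodule.span (KK σ) (Set.range fun j => cst σ (h j)))) :
    ∃ c : ℝ, 0 < c ∧ ∃ κ : ℕ, ∀ (t : Fin r → ℝ) (X : ℝ), 1 ≤ X → ∀ (s : ℕ) (v : Fin s → (Fin m ⊕ Fin r) → ℤ),
      LinearIndependent ℤ v → (∀ i j, |(v i j : ℝ)| ≤ X) →
      (∀ i, |∑ j, (v i (Sum.inl j) : ℝ) * h j + ∑ l, (v i (Sum.inr l) : ℝ) * t l| < c / X ^ κ) →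
      s + D ≤ m + r := by
  by_contra hcon
  push Not at hcon
  choose t X hX s v hv hb hsm hlt using fun k : ℕ => hcon (1 / ((k : ℝ) + 2) ^ k) (by positivity) k
  let σ : Scale := ⟨fun k => ((k : ℝ) + 2) * X k, fun k => by
    have h1 := hX k
    have h2 : (0 : ℝ) ≤ k := Nat.cast_nonneg k
    nlinarith⟩
  have hσ : ∀ k, σ.T k = ((k : ℝ) + 2) * X k := fun k => rfl
  have hXT : ∀ k, X k ≤ σ.T k := fun k => by
    rw [hσ]
    have h1 := hX k
    have h2 : (0 : ℝ) ≤ k := Nat.cast_nonneg k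
    nlinarith
  obtain ⟨s0, hs0⟩ : ∃ s0 : ℕ, s0 = m + r + 1 - D := ⟨_, rfl⟩
  have hle : ∀ k, s0 ≤ s k := fun k => by
    have := hlt k
    omega
  have hmem : ∀ (i : Fin s0) (j : Fin m ⊕ Fin r), (fun k => v k (Fin.castLE (hle k) i) j) ∈ ZS σ := by
    intro i j
    rw [mem_ZS]
    refine ⟨1, Eventually.of_forall fun k => ?_⟩
    rw [pow_one]
    exact (hb k _ _).trans (hXT k)
  have h1 := transfer σ h t (s := s0) (fun i j => ⟨_, hmem i j⟩) (fun k => (hv k).comp _ (Fin.castLE_injective (hle k)))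
    (fun k i => by
      have h2 := (hsm k (Fin.castLE (hle k) i)).le
      have hX0 : 0 < X k := lt_of_lt_of_le one_pos (hX k)
      have h3 : (0 : ℝ) < (k : ℝ) + 2 := by positivity
      rw [hσ, mul_pow]
      calc _ ≤ 1 / ((k : ℝ) + 2) ^ k / X k ^ k * (((k : ℝ) + 2) ^ k * X k ^ k) :=
            mul_le_mul_of_nonneg_right h2 (by positivity)
        _ = 1 := by field_simp)
  have h2 := hD σ
  omega

/-- a number in the rational span of the `h_j` -/
theorem cst_mem (σ : Scale) {m : ℕ} (h : Fin m → ℝ) {z : ℝ} (hz : z ∈ Submodule.span ℚ (Set.range h)) :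
    cst σ z ∈ Submodule.span (KK σ) (Set.range fun j => cst σ (h j)) := by
  induction hz using Submodule.span_induction with
  | mem x hx =>
    obtain ⟨j, rfl⟩ := hx
    exact Submodule.subset_span ⟨j, rfl⟩
  | zero =>
    rw [map_zero]
    exact Submodule.zero_mem _
  | add x y _ _ hx hy =>
    rw [map_add]
    exact Submodule.add_mem _ hx hy
  | smul q x _ hx =>
    have e : cst σ (q • x) = (q : KK σ) • cst σ x := by
      rw [Rat.smul_def, map_mul, Algebra.smul_def, map_ratCast, map_ratCast]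
    rw [e]
    exact Submodule.smul_mem _ _ hx

open Pool.Agent.H447R2.MZ in
/-- the span contains the monomials -/
theorem cont (σ : Scale) {m : ℕ} (h : Fin m → ℝ) (W : Finset ℕ)
    (hW : ∀ n ∈ W, Zs n ≤ Submodule.span ℚ (Set.range h)) :
    Cont (Submodule.span (KK σ) (Set.range fun j => cst σ (h j))) (cst σ (Real.pi ^ 2)) (cst σ z3) W := by
  intro a b hab
  have h1 : (Real.pi ^ 2) ^ a * z3 ^ b ∈ Zs (2 * a + 3 * b) :=
    mul_mem (2 * a) (3 * b) _ _ (pow_mem 2 _ pi_sq_mem a) (pow_mem 3 _ z3_mem b)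
  have h2 := cst_mem σ h (hW _ hab h1)
  rwa [map_mul, map_pow, map_pow] at h2

open Pool.Agent.H447R2.MZ in
/-- `1, π², ζ(3)` are independent over the field -/
theorem not_lin (σ : Scale) (a b : KK σ) :
    cst σ z3 ≠ algebraMap (KK σ) (LL σ) a + algebraMap (KK σ) (LL σ) b * cst σ (Real.pi ^ 2) := by
  intro h
  obtain ⟨κ, hκ, c, hc, hm⟩ := Pool.Agent.TH647.NR.meas_pi_zeta
  have h1 := indepK σ _ (mea_of_meas _ κ c hc hm)
  rw [Fintype.linearIndependent_iff] at h1
  have h2 := h1 ![a, b, -1] (by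
    rw [Fin.sum_univ_three]
    simp only [Matrix.cons_val_zero, Matrix.cons_val_one, Matrix.cons_val, Algebra.smul_def, map_neg, map_one]
    have e : (∑' n : ℕ, 1 / ((n : ℝ) + 1) ^ 3) = z3 := rfl
    rw [e, h]
    ring) 2
  simp at h2

open Pool.Agent.H447R2.MZ in
/-- `ζ(3), π⁴` are independent over the field -/
theorem not_four (σ : Scale) (b : KK σ) :
    cst σ z3 ≠ algebraMap (KK σ) (LL σ) b * cst σ (Real.pi ^ 2) ^ 2 := by
  intro h
  obtain ⟨c, hc, hm⟩ := Pool.Agent.TH647.NR.meas_zeta_pi4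
  have h1 := indepK σ _ (mea_of_meas _ _ c hc hm)
  rw [Fintype.linearIndependent_iff] at h1
  have h2 := h1 ![0, -1, b] (by
    rw [Fin.sum_univ_three]
    simp only [Matrix.cons_val_zero, Matrix.cons_val_one, Matrix.cons_val, Algebra.smul_def, map_neg, map_one, map_zero]
    have e : (∑' n : ℕ, 1 / ((n : ℝ) + 1) ^ 3) = z3 := rfl
    have e4 : cst σ (Real.pi ^ 4) = cst σ (Real.pi ^ 2) ^ 2 := by
      rw [← map_pow, ← pow_mul]
    rw [e, h, e4]
    ring) 1
  simp at h2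

lemma le_finrank (σ : Scale) {m : ℕ} (h : Fin m → ℝ) {D : ℕ}
    (hD : ((D : ℕ) : Cardinal) ≤ Module.rank (KK σ) (Submodule.span (KK σ) (Set.range fun j => cst σ (h j)))) :
    D ≤ finrank (KK σ) (Submodule.span (KK σ) (Set.range fun j => cst σ (h j))) := by
  have : Module.Finite (KK σ) (Submodule.span (KK σ) (Set.range fun j => cst σ (h j))) :=
    FiniteDimensional.span_of_finite _ (Set.finite_range _)
  rw [← Module.finrank_eq_rank] at hD
  exact_mod_cast hD

end Pool.Agent.Helper17K9.NR
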