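import Pool.Agent.Helper17K9.NR.Fld

set_option autoImplicit false

/-!
# Near relations as relations in the field of sequences
-/

namespace Pool.Agent.Helper17K9.NR

open Filter Module

variable (σ : Scale)

/-- the value of a combination of near relations whose last coordinates vanish -/
theorem comb_zero {m r s : ℕ} (h : Fin m → ℝ) (t : ℕ → Fin r → ℝ) (v : Fin s → (Fin m ⊕ Fin r) → ZS σ)
    (hs : ∀ k i, |∑ j, ((v i (Sum.inl j)).1 k : ℝ) * h j + ∑ l, ((v i (Sum.inr l)).1 k : ℝ) * t k l| *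
      σ.T k ^ k ≤ 1)
    (n : Fin s → ZS σ) (h0 : ∀ l, phi σ (∑ i, n i * v i (Sum.inr l)) = 0) :
    ∑ j, phi σ (∑ i, n i * v i (Sum.inl j)) * cst σ (h j) = 0 := by
  rw [phi_sum]
  have hval : ∀ j k, (∑ i, n i * v i j : ZS σ).1 k = ∑ i, (n i).1 k * (v i j).1 k := by
    intro j k
    have e1 : (∑ i, n i * v i j : ZS σ).1 = ∑ i, (n i * v i j : ZS σ).1 := map_sum (ZS σ).subtype _ _
    rw [e1, Finset.sum_apply]
    rfl
  choose e he using fun i => (mem_ZS σ).1 (n i).2
  obtain ⟨E, hE⟩ : ∃ E : ℕ, ∀ j, e j ≤ E :=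
    ⟨∑ j, e j, fun j => Finset.single_le_sum (f := e) (fun _ _ => Nat.zero_le _) (Finset.mem_univ j)⟩
  obtain ⟨u, hu⟩ := pow_unbounded_of_one_lt (s : ℝ) (by norm_num : (1 : ℝ) < 2)
  intro M
  have h1 : ∀ᶠ k in (UU : Filter ℕ), ∀ l, ∑ i, (n i).1 k * (v i (Sum.inr l)).1 k = 0 := by
    refine eventually_all.2 fun l => ?_
    have h2 := h0 l
    rw [phi_zero] at h2
    filter_upwards [h2] with k hk
    rw [← hval, hk]
  have h3 : ∀ᶠ k in (UU : Filter ℕ), E + M + u ≤ k :=
    (eventually_ge_atTop _).filter_mono Nat.hyperfilter_le_atTop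
  filter_upwards [h1, h3, eventually_all.2 he] with k hk1 hk2 hk3
  have h4 : ∑ j, ((∑ i, n i * v i (Sum.inl j) : ZS σ).1 k : ℝ) * h j =
      ∑ i, ((n i).1 k : ℝ) * (∑ j, ((v i (Sum.inl j)).1 k : ℝ) * h j +
        ∑ l, ((v i (Sum.inr l)).1 k : ℝ) * t k l) := by
    have h5 : ∑ i, ((n i).1 k : ℝ) * ∑ l, ((v i (Sum.inr l)).1 k : ℝ) * t k l = 0 := by
      simp only [Finset.mul_sum]
      rw [Finset.sum_comm]
      refine Finset.sum_eq_zero fun l _ => ?_
      have h6 : ∑ i, ((n i).1 k : ℝ) * ((v i (Sum.inr l)).1 k : ℝ) = 0 := by exact_mod_cast hk1 l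
      rw [← zero_mul (t k l), ← h6, Finset.sum_mul]
      exact Finset.sum_congr rfl fun i _ => by ring
    simp only [mul_add, Finset.sum_add_distrib]
    rw [h5, add_zero]
    simp only [hval, Finset.mul_sum]
    rw [Finset.sum_comm]
    refine Finset.sum_congr rfl fun j _ => ?_
    push_cast
    rw [Finset.sum_mul]
    exact Finset.sum_congr rfl fun i _ => by ring
  rw [h4]
  have hT := σ.pow_pos k
  have h6 : |∑ i, ((n i).1 k : ℝ) * (∑ j, ((v i (Sum.inl j)).1 k : ℝ) * h j +
        ∑ l, ((v i (Sum.inr l)).1 k : ℝ) * t k l)| * σ.T k ^ k ≤ s * σ.T k ^ E := by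
    calc _ ≤ (∑ i, |((n i).1 k : ℝ) * (∑ j, ((v i (Sum.inl j)).1 k : ℝ) * h j +
        ∑ l, ((v i (Sum.inr l)).1 k : ℝ) * t k l)|) * σ.T k ^ k :=
          mul_le_mul_of_nonneg_right (Finset.abs_sum_le_sum_abs _ _) (hT k).le
      _ = ∑ i, |((n i).1 k : ℝ)| * (|∑ j, ((v i (Sum.inl j)).1 k : ℝ) * h j +
        ∑ l, ((v i (Sum.inr l)).1 k : ℝ) * t k l| * σ.T k ^ k) := by
          rw [Finset.sum_mul]
          exact Finset.sum_congr rfl fun i _ => by rw [abs_mul, mul_assoc]
      _ ≤ ∑ i : Fin s, σ.T k ^ E * 1 := by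
          refine Finset.sum_le_sum fun i _ => ?_
          exact mul_le_mul ((hk3 i).trans (σ.pow_mono k (hE i))) (hs k i)
            (mul_nonneg (abs_nonneg _) (hT k).le) (hT E).le
      _ = s * σ.T k ^ E := by simp
  have h7 : (s : ℝ) ≤ σ.T k ^ u := hu.le.trans (pow_le_pow_left₀ (by norm_num) (σ.two k) u)
  obtain ⟨A, hA⟩ : ∃ A : ℝ, A = |∑ i, ((n i).1 k : ℝ) * (∑ j, ((v i (Sum.inl j)).1 k : ℝ) * h j +
        ∑ l, ((v i (Sum.inr l)).1 k : ℝ) * t k l)| := ⟨_, rfl⟩
  rw [← hA] at h6 ⊢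
  have hA0 : 0 ≤ A := by rw [hA]; exact abs_nonneg _
  have h8 : A * σ.T k ^ M * σ.T k ^ (u + E) ≤ 1 * σ.T k ^ (u + E) := by
    calc A * σ.T k ^ M * σ.T k ^ (u + E) = A * σ.T k ^ (E + M + u) := by rw [mul_assoc, ← pow_add]; congr 2; ring
      _ ≤ A * σ.T k ^ k := mul_le_mul_of_nonneg_left (σ.pow_mono k hk2) hA0
      _ ≤ s * σ.T k ^ E := h6
      _ ≤ σ.T k ^ u * σ.T k ^ E := mul_le_mul_of_nonneg_right h7 (hT E).le
      _ = 1 * σ.T k ^ (u + E) := by rw [pow_add, one_mul]
  exact le_of_mul_le_mul_right h8 (hT _)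

/-- **Transfer.** Independent near relations between `h_1, …, h_m` and arbitrary numbers `t_1, …, t_r` bound the
dimension of the span of the `h_j` over the field of sequences. -/
theorem transfer {m r s : ℕ} (h : Fin m → ℝ) (t : ℕ → Fin r → ℝ) (v : Fin s → (Fin m ⊕ Fin r) → ZS σ)
    (hv : ∀ k, LinearIndependent ℤ (fun i => fun j => (v i j).1 k))
    (hs : ∀ k i, |∑ j, ((v i (Sum.inl j)).1 k : ℝ) * h j + ∑ l, ((v i (Sum.inr l)).1 k : ℝ) * t k l| *
      σ.T k ^ k ≤ 1) :
    finrank (KK σ) (Submodule.span (KK σ) (Set.range fun j => cst σ (h j))) + s ≤ m + r := by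
  classical
  obtain ⟨F, hF⟩ : ∃ F : (Fin m → KK σ) →ₗ[KK σ] LL σ, ∀ c, F c = ∑ j, c j • cst σ (h j) :=
    ⟨Fintype.linearCombination (KK σ) (fun j => cst σ (h j)), fun c => Fintype.linearCombination_apply _ _ _⟩
  have hrange : LinearMap.range F = Submodule.span (KK σ) (Set.range fun j => cst σ (h j)) := by
    ext z
    rw [LinearMap.mem_range, Submodule.mem_span_range_iff_exists_fun]
    exact exists_congr fun c => by rw [hF]
  obtain ⟨w, hw⟩ : ∃ w : Fin s → (Fin m ⊕ Fin r) → KK σ, w = fun i j => algebraMap (RR σ) (KK σ) (toR σ (v i j)) :=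
    ⟨_, rfl⟩
  have hwi : LinearIndependent (KK σ) w := by
    rw [hw]
    exact vec_indep σ v hv
  -- the two projections
  obtain ⟨A, hA⟩ : ∃ A : (Fin s → KK σ) →ₗ[KK σ] (Fin r → KK σ), ∀ c l, A c l = ∑ i, c i * w i (Sum.inr l) :=
    ⟨{ toFun := fun c l => ∑ i, c i * w i (Sum.inr l)
       map_add' := fun c d => by funext l; simp [add_mul, Finset.sum_add_distrib]
       map_smul' := fun a c => by funext l; simp [Finset.mul_sum, mul_assoc] }, fun _ _ => rfl⟩
  obtain ⟨B, hB⟩ : ∃ B : (Fin s → KK σ) →ₗ[KK σ] (Fin m → KK σ), ∀ c l, B c l = ∑ i, c i * w i (Sum.inl l) :=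
    ⟨{ toFun := fun c l => ∑ i, c i * w i (Sum.inl l)
       map_add' := fun c d => by funext l; simp [add_mul, Finset.sum_add_distrib]
       map_smul' := fun a c => by funext l; simp [Finset.mul_sum, mul_assoc] }, fun _ _ => rfl⟩
  have hkerA : s ≤ finrank (KK σ) (LinearMap.ker A) + r := by
    have h1 := LinearMap.finrank_range_add_finrank_ker A
    have h2 : finrank (KK σ) (LinearMap.range A) ≤ r := by
      refine (Submodule.finrank_le _).trans ?_
      simp
    simp only [finrank_fintype_fun_eq_card, Fintype.card_fin] at h1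
    omega
  have hinj : ∀ c, A c = 0 → B c = 0 → c = 0 := by
    intro c h1 h2
    rw [Fintype.linearIndependent_iff] at hwi
    have h3 := hwi c (by
      funext j
      rw [Finset.sum_apply]
      rcases j with j | l
      · have := congrFun h2 j
        rw [hB] at this
        simpa using this
      · have := congrFun h1 l
        rw [hA] at this
        simpa using this)
    exact funext h3
  have hFB : ∀ c, A c = 0 → F (B c) = 0 := by
    intro c hc
    obtain ⟨b, hb⟩ := IsLocalization.exist_integer_multiples_of_finite (nonZeroDivisors (RR σ)) c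
    choose c' hc' using hb
    choose n hn using fun i => toR_surj σ (c' i)
    have hb0 : algebraMap (RR σ) (KK σ) (b : RR σ) ≠ 0 := by
      rw [Ne, map_eq_zero_iff _ (IsFractionRing.injective (RR σ) (KK σ))]
      exact nonZeroDivisors.coe_ne_zero b
    have hcc : ∀ i, algebraMap (RR σ) (KK σ) (c' i) = algebraMap (RR σ) (KK σ) (b : RR σ) * c i := by
      intro i
      rw [hc', Algebra.smul_def]
    have hsum : ∀ j, algebraMap (RR σ) (KK σ) (∑ i, c' i * toR σ (v i j)) =
        algebraMap (RR σ) (KK σ) (b : RR σ) * ∑ i, c i * w i j := by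
      intro j
      rw [map_sum, Finset.mul_sum]
      refine Finset.sum_congr rfl fun i _ => ?_
      rw [map_mul, hcc, hw, mul_assoc]
    have hval : ∀ j, ((∑ i, c' i * toR σ (v i j) : RR σ) : LL σ) = phi σ (∑ i, n i * v i j) := by
      intro j
      rw [AddSubmonoidClass.coe_finsetSum, map_sum]
      refine Finset.sum_congr rfl fun i _ => ?_
      rw [map_mul, ← hn]
      rfl
    have h0 : ∀ l, phi σ (∑ i, n i * v i (Sum.inr l)) = 0 := by
      intro l
      rw [← hval]
      have h1 := hsum (Sum.inr l)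
      have h2 := congrFun hc l
      rw [hA] at h2
      rw [h2, Pi.zero_apply, mul_zero, map_eq_zero_iff _ (IsFractionRing.injective (RR σ) (KK σ))] at h1
      rw [h1]
      rfl
    have h1 := comb_zero σ h t v hs n h0
    have h2 : algebraMap (RR σ) (KK σ) (b : RR σ) • F (B c) = 0 := by
      rw [← h1, hF, Finset.smul_sum]
      refine Finset.sum_congr rfl fun j _ => ?_
      rw [smul_smul, hB, ← hsum, ← hval, IsScalarTower.algebraMap_smul]
      rfl
    rcases smul_eq_zero.1 h2 with h3 | h3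
    · exact absurd h3 hb0
    · exact h3
  have hker : finrank (KK σ) (LinearMap.ker A) ≤ finrank (KK σ) (LinearMap.ker F) := by
    refine LinearMap.finrank_le_finrank_of_injective
      (f := (B.comp (LinearMap.ker A).subtype).codRestrict (LinearMap.ker F) fun c => hFB c.1 c.2) ?_
    rw [injective_iff_map_eq_zero]
    intro c hc
    refine Subtype.ext (hinj c.1 c.2 ?_)
    exact congrArg Subtype.val hc
  have h1 := LinearMap.finrank_range_add_finrank_ker F
  rw [hrange] at h1
  simp only [finrank_fintype_fun_eq_card, Fintype.card_fin] at h1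
  omega

end Pool.Agent.Helper17K9.NR
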